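import Pool.Agent.H174.GP.StE

open MeasureTheory ProbabilityTheory Finset Filter Topology

namespace Pool.Agent.H726.GP174

open Pool.Agent.H174.GP

lemma cb_sq (m : ℕ) (hm : 1 ≤ m) : (16 : ℝ) ^ m ≤ ((m.centralBinom : ℝ)) ^ 2 * (4 * m) := by
  induction m, hm using Nat.le_induction with
  | base => norm_num [Nat.centralBinom, Nat.choose]
  | succ m hm ih =>
    have h := Nat.succ_mul_centralBinom_succ m
    have h' : ((m : ℝ) + 1) * ((m + 1).centralBinom : ℝ) = 2 * (2 * m + 1) * (m.centralBinom : ℝ) := by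
      exact_mod_cast h
    have hmpos : (0 : ℝ) < (m : ℝ) := by exact_mod_cast hm
    have h1 : ((m : ℝ) + 1) * (((m + 1).centralBinom : ℝ) ^ 2 * (4 * ((m + 1 : ℕ) : ℝ))) * m
        = 4 * (2 * m + 1) ^ 2 * ((m.centralBinom : ℝ) ^ 2 * (4 * m)) := by
      have h2 : (((m : ℝ) + 1) * ((m + 1).centralBinom : ℝ)) ^ 2 = (2 * (2 * m + 1) * (m.centralBinom : ℝ)) ^ 2 := by
        rw [h']
      push_cast
      nlinarith [h2]
    have h3 : 4 * (2 * (m : ℝ) + 1) ^ 2 * 16 ^ m ≤ 4 * (2 * (m : ℝ) + 1) ^ 2 * ((m.centralBinom : ℝ) ^ 2 * (4 * m)) :=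
      mul_le_mul_of_nonneg_left ih (by positivity)
    rw [← h1] at h3
    have h4 : ((m : ℝ) + 1) * m * 16 ^ (m + 1) ≤ 4 * (2 * (m : ℝ) + 1) ^ 2 * 16 ^ m := by
      rw [pow_succ]
      have : (0 : ℝ) < 16 ^ m := by positivity
      nlinarith [this]
    have h5 : ((m : ℝ) + 1) * m * 16 ^ (m + 1) ≤
        ((m : ℝ) + 1) * m * (((m + 1).centralBinom : ℝ) ^ 2 * (4 * ((m + 1 : ℕ) : ℝ))) := by
      calc _ ≤ _ := h4
        _ ≤ _ := h3
        _ = _ := by ring
    exact le_of_mul_le_mul_left h5 (by positivity)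

lemma cb_low (m : ℕ) (hm : 1 ≤ m) : (4 : ℝ) ^ m / (2 * Real.sqrt m) ≤ (m.centralBinom : ℝ) := by
  have h := cb_sq m hm
  have hmpos : (0 : ℝ) < (m : ℝ) := by exact_mod_cast hm
  rw [div_le_iff₀ (by positivity)]
  have h2 : ((4 : ℝ) ^ m) ^ 2 ≤ ((m.centralBinom : ℝ) * (2 * Real.sqrt m)) ^ 2 := by
    have e1 : ((4 : ℝ) ^ m) ^ 2 = 16 ^ m := by
      rw [← pow_mul, mul_comm, pow_mul]; norm_num
    have e2 : ((m.centralBinom : ℝ) * (2 * Real.sqrt m)) ^ 2 = ((m.centralBinom : ℝ)) ^ 2 * (4 * m) := by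
      rw [mul_pow, mul_pow, Real.sq_sqrt hmpos.le]; ring
    rw [e1, e2]; exact h
  exact le_of_sq_le_sq h2 (by positivity)

lemma bn_half (n k : ℕ) (hk : k ≤ n) : bn n (1 / 2) k = (n.choose k : ℝ) / 2 ^ n := by
  unfold bn
  have : (1 - 1 / 2 : ℝ) = 1 / 2 := by norm_num
  rw [this, mul_assoc, ← pow_add, Nat.add_sub_cancel' hk, one_div, inv_pow]
  rfl

lemma bn_mid (n : ℕ) (hn : 1 ≤ n) : 1 / (2 * Real.sqrt n) ≤ bn n (1 / 2) (n / 2) := by
  rw [bn_half n (n / 2) (Nat.div_le_self n 2)]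
  have hnpos : (0 : ℝ) < (n : ℝ) := by exact_mod_cast hn
  rcases Nat.even_or_odd' n with ⟨m, hm | hm⟩
  · have hm1 : 1 ≤ m := by omega
    have hd : n / 2 = m := by omega
    have hmpos : (0 : ℝ) < (m : ℝ) := by exact_mod_cast hm1
    rw [hd]
    have h1 := cb_low m hm1
    have h2 : (n.choose m : ℝ) = (m.centralBinom : ℝ) := by
      rw [hm]; rfl
    rw [h2]
    have e4 : (2 : ℝ) ^ n = 4 ^ m := by
      rw [hm, pow_mul]; norm_num
    rw [e4]
    have h3 : (1 : ℝ) / (2 * Real.sqrt m) ≤ (m.centralBinom : ℝ) / 4 ^ m := by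
      rw [le_div_iff₀ (by positivity)]
      calc 1 / (2 * Real.sqrt m) * 4 ^ m = 4 ^ m / (2 * Real.sqrt m) := by ring
        _ ≤ _ := h1
    refine le_trans ?_ h3
    apply one_div_le_one_div_of_le (by positivity)
    have : Real.sqrt m ≤ Real.sqrt n := Real.sqrt_le_sqrt (by rw [hm]; push_cast; linarith)
    linarith
  · have hd : n / 2 = m := by omega
    rw [hd]
    have h1 := cb_low (m + 1) (by omega)
    have h2 : 2 * (n.choose m) = ((m + 1).centralBinom) := by
      have e : (m + 1).centralBinom = (2 * m + 1 + 1).choose (m + 1) := by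
        unfold Nat.centralBinom; rfl
      rw [e, Nat.choose_succ_succ, hm]
      have : (2 * m + 1).choose (m + 1) = (2 * m + 1).choose m := by
        apply Nat.choose_symm_of_eq_add; omega
      rw [Nat.succ_eq_add_one, this]
      ring
    have h2' : 2 * (n.choose m : ℝ) = ((m + 1).centralBinom : ℝ) := by exact_mod_cast h2
    rw [← h2'] at h1
    have e4 : (4 : ℝ) ^ (m + 1) = 2 * 2 ^ n := by
      rw [hm]
      have : (4 : ℝ) = 2 ^ 2 := by norm_num
      rw [this, ← pow_mul]; ring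
    rw [e4] at h1
    have hs : Real.sqrt ((m + 1 : ℕ) : ℝ) ≤ Real.sqrt n := by
      apply Real.sqrt_le_sqrt
      exact_mod_cast (by omega : m + 1 ≤ n)
    have hspos : 0 < Real.sqrt ((m + 1 : ℕ) : ℝ) := Real.sqrt_pos.mpr (by positivity)
    have hspos' : 0 < Real.sqrt n := Real.sqrt_pos.mpr hnpos
    rw [le_div_iff₀ (by positivity), div_mul_eq_mul_div, one_mul, div_le_iff₀ (by positivity)]
    rw [div_le_iff₀ (by positivity)] at h1
    have hc : (0 : ℝ) ≤ (n.choose m : ℝ) := by positivity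
    nlinarith [mul_le_mul_of_nonneg_left hs hc]

/-- Local lower bound for fair coins. -/
theorem gp_binlow (h1 : S_bin2) : Pool.Agent.H174.GP.S_binlow := by
  obtain ⟨C, hC, c0, hc0, H⟩ := h1 (1 / 2) (by norm_num) le_rfl
  obtain ⟨N0, hN0⟩ := exists_nat_ge (2 / c0)
  refine ⟨min (Real.exp (-(2 * C)) / 2) ((1 / 2) ^ N0), by positivity, C, hC, min c0 1, by positivity, ?_⟩
  intro n k hn hk
  have hnpos : (0 : ℝ) < (n : ℝ) := by exact_mod_cast hn
  have hn1 : (1 : ℝ) ≤ (n : ℝ) := by exact_mod_cast hn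
  have hsq1 : 1 ≤ Real.sqrt n := by
    rw [show (1 : ℝ) = Real.sqrt 1 by simp]; exact Real.sqrt_le_sqrt hn1
  have hspos : 0 < Real.sqrt n := by linarith
  have hkn : k ≤ n := by
    have h2 : 2 * (k : ℝ) - n ≤ 1 * n :=
      le_trans (le_abs_self _) (le_trans hk (mul_le_mul_of_nonneg_right (min_le_right _ _) hnpos.le))
    have h3 : (k : ℝ) ≤ n := by linarith
    exact_mod_cast h3
  by_cases hlarge : 2 / c0 ≤ n
  · have hc0n : 2 ≤ c0 * n := by
      rw [div_le_iff₀ hc0] at hlarge; linarith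
    have hk' : |2 * (k : ℝ) - n| ≤ c0 * n :=
      le_trans hk (mul_le_mul_of_nonneg_right (min_le_left _ _) hnpos.le)
    set x : ℝ := 2 * (k : ℝ) - n with hx
    set v : ℝ := |x| / 2 + 1 with hv
    have hvpos : 0 < v := by positivity
    have hmid : |((n / 2 : ℕ) : ℝ) - 1 / 2 * n| ≤ 1 / 2 := by
      have e : n % 2 + 2 * (n / 2) = n := Nat.mod_add_div n 2
      have e' : ((n % 2 : ℕ) : ℝ) + 2 * ((n / 2 : ℕ) : ℝ) = n := by exact_mod_cast e
      have e2 : ((n % 2 : ℕ) : ℝ) ≤ 1 := by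
        have : n % 2 ≤ 1 := by omega
        exact_mod_cast this
      have e3 : (0 : ℝ) ≤ ((n % 2 : ℕ) : ℝ) := by positivity
      rw [abs_le]; constructor <;> linarith
    have huv : v / Real.sqrt n * Real.sqrt n = v := by field_simp
    have hB := H (1 / 2) (v / Real.sqrt n) n (n / 2) k le_rfl (by norm_num) hn (by positivity) (by
        rw [div_le_iff₀ hspos]
        have : c0 * Real.sqrt n * Real.sqrt n = c0 * n := by
          rw [mul_assoc, Real.mul_self_sqrt hnpos.le]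
        rw [this]
        have : |x| / 2 ≤ c0 * n / 2 := by linarith
        rw [hv]; linarith) (by
        rw [huv]
        have : 0 ≤ |x| / 2 := by positivity
        linarith) (by
        rw [huv]
        have e : (k : ℝ) - 1 / 2 * n = x / 2 := by rw [hx]; ring
        rw [e, abs_div, abs_two]
        linarith)
    rw [huv] at hB
    have hkk : |((n / 2 : ℕ) : ℝ) - k| ≤ |x| / 2 + 1 / 2 := by
      have e : ((n / 2 : ℕ) : ℝ) - k = (((n / 2 : ℕ) : ℝ) - 1 / 2 * n) + (-(x / 2)) := by rw [hx]; ring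
      rw [e]
      refine le_trans (abs_add_le _ _) ?_
      rw [abs_neg, abs_div, abs_two]
      linarith
    have hexp : C * |((n / 2 : ℕ) : ℝ) - k| * (v + 1) / n ≤ C * x ^ 2 / n + 2 * C := by
      have h3 : |((n / 2 : ℕ) : ℝ) - k| * (v + 1) ≤ x ^ 2 + 2 := by
        have h4 : |((n / 2 : ℕ) : ℝ) - k| * (v + 1) ≤ (|x| / 2 + 1 / 2) * (v + 1) :=
          mul_le_mul_of_nonneg_right hkk (by positivity)
        refine le_trans h4 ?_
        rw [hv]
        have h5 : |x| ^ 2 = x ^ 2 := sq_abs x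
        nlinarith [sq_nonneg (|x| - 1), abs_nonneg x]
      have h6 : C * |((n / 2 : ℕ) : ℝ) - k| * (v + 1) ≤ C * (x ^ 2 + 2) := by
        rw [mul_assoc]; exact mul_le_mul_of_nonneg_left h3 hC.le
      calc C * |((n / 2 : ℕ) : ℝ) - k| * (v + 1) / n ≤ C * (x ^ 2 + 2) / n :=
            div_le_div_of_nonneg_right h6 hnpos.le
        _ = C * x ^ 2 / n + 2 * C / n := by ring
        _ ≤ C * x ^ 2 / n + 2 * C := by
            have : 2 * C / n ≤ 2 * C := div_le_self (by positivity) hn1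
            linarith
    have hbk : 0 ≤ bn n (1 / 2) k := by rw [bn_half n k hkn]; positivity
    have h7 : 1 / (2 * Real.sqrt n) ≤ bn n (1 / 2) k * Real.exp (C * x ^ 2 / n + 2 * C) :=
      le_trans (bn_mid n hn) (le_trans hB (mul_le_mul_of_nonneg_left (Real.exp_le_exp.mpr hexp) hbk))
    have h8 : 1 / (2 * Real.sqrt n) * Real.exp (-(C * x ^ 2 / n + 2 * C)) ≤ bn n (1 / 2) k := by
      rw [Real.exp_neg, ← div_eq_mul_inv, div_le_iff₀ (Real.exp_pos _)]
      exact h7
    refine le_trans ?_ h8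
    have h9 : min (Real.exp (-(2 * C)) / 2) ((1 / 2) ^ N0) / Real.sqrt n ≤ Real.exp (-(2 * C)) / 2 / Real.sqrt n :=
      div_le_div_of_nonneg_right (min_le_left _ _) hspos.le
    refine le_trans (mul_le_mul_of_nonneg_right h9 (Real.exp_pos _).le) (le_of_eq ?_)
    have : Real.exp (-(C * x ^ 2 / n + 2 * C)) = Real.exp (-(2 * C)) * Real.exp (-(C * x ^ 2 / n)) := by
      rw [← Real.exp_add]; congr 1; ring
    rw [this]
    field_simp
  · have hnN : n ≤ N0 := by
      have : (n : ℝ) ≤ N0 := by linarith [not_le.mp hlarge]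
      exact_mod_cast this
    have h10 : (1 / 2 : ℝ) ^ N0 ≤ bn n (1 / 2) k := by
      rw [bn_half n k hkn]
      have hch : (1 : ℝ) ≤ (n.choose k : ℝ) := by
        exact_mod_cast Nat.choose_pos hkn
      calc (1 / 2 : ℝ) ^ N0 ≤ (1 / 2) ^ n := pow_le_pow_of_le_one (by norm_num) (by norm_num) hnN
        _ = 1 / 2 ^ n := by rw [one_div, inv_pow, one_div]
        _ ≤ (n.choose k : ℝ) / 2 ^ n := div_le_div_of_nonneg_right hch (by positivity)
    refine le_trans ?_ h10
    have hm0 : 0 ≤ min (Real.exp (-(2 * C)) / 2) ((1 / 2 : ℝ) ^ N0) := by positivity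
    calc min (Real.exp (-(2 * C)) / 2) ((1 / 2) ^ N0) / Real.sqrt n * Real.exp (-(C * (2 * (k : ℝ) - n) ^ 2 / n))
        ≤ min (Real.exp (-(2 * C)) / 2) ((1 / 2) ^ N0) / Real.sqrt n * 1 := by
          apply mul_le_mul_of_nonneg_left _ (by positivity)
          rw [Real.exp_le_one_iff]
          have : 0 ≤ C * (2 * (k : ℝ) - n) ^ 2 / n := by positivity
          linarith
      _ ≤ min (Real.exp (-(2 * C)) / 2) ((1 / 2) ^ N0) := by
          rw [mul_one]; exact div_le_self hm0 hsq1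
      _ ≤ _ := min_le_right _ _

end Pool.Agent.H726.GP174
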